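import Pool.Agent.H56.MI.Main

/-!
MP_2b6f50_lc (the `E₁` conjecture): Borel equivalence relations which are idealistic through (iterated)
null ideals of Borel families of measures are Borel reducible to a Polish group action.
-/

namespace Pool.Agent.H56.MI.Keep.Meas

open Set MeasureTheory

/-- Let `E ⊆ F` be Borel equivalence relations on a standard Borel space `X`, and let `ε x`, `μ x`
(`x : X`) be Borel families of probability measures such that the `E` class of `x` has positive `ε x`
measure and the `F` class of `x` has positive `μ x` measure. Suppose that `E` equivalent points have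
the same `ε` null sets among the Borel subsets of their `E` class, and that `F` equivalent points have
the same `μ` null sets among the `E` invariant Borel subsets of their `F` class. Then there are a
Polish group `G`, a continuous action of `G` on a Polish space `Z` and a Borel map `f : X → Z` with
`F x x'` iff `f x` and `f x'` lie in the same orbit. (`E` may be equality, `ε x` the point mass at
`x`: then the last condition is about all Borel subsets of the class.) -/
theorem result (X : Type) [MeasurableSpace X] [StandardBorelSpace X] (E F : Setoid X)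
    (hEF : ∀ x y, E x y → F x y) (hE : MeasurableSet {p : X × X | E p.1 p.2})
    (hF : MeasurableSet {p : X × X | F p.1 p.2}) (ε μ : X → Measure X) (hε : Measurable ε)
    (hμ : Measurable μ) (hεp : ∀ x, IsProbabilityMeasure (ε x))
    (hμp : ∀ x, IsProbabilityMeasure (μ x)) (hεpos : ∀ x, ε x {y | E x y} ≠ 0)
    (hμpos : ∀ x, μ x {y | F x y} ≠ 0)
    (hεn : ∀ x x', E x x' → ∀ B, MeasurableSet B → B ⊆ {y | E x y} → ε x B = 0 → ε x' B = 0)
    (hμn : ∀ x x', F x x' → ∀ B, MeasurableSet B → B ⊆ {y | F x y} →
      (∀ y z, E y z → y ∈ B → z ∈ B) → μ x B = 0 → μ x' B = 0) :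
    ∃ (G Z : Type) (_ : TopologicalSpace G) (_ : Group G) (_ : IsTopologicalGroup G)
      (_ : PolishSpace G) (_ : TopologicalSpace Z) (_ : PolishSpace Z) (_ : MeasurableSpace Z)
      (_ : BorelSpace Z) (_ : MulAction G Z) (_ : ContinuousSMul G Z) (f : X → Z),
      Measurable f ∧ ∀ x x' : X, F x x' ↔ ∃ g : G, g • f x = f x' :=
  Pool.Agent.H56.MI.main_two E F hEF hE hF ε hε hεp hεpos hεn μ hμ hμp hμpos hμn

end Pool.Agent.H56.MI.Keep.Meas
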